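import Pool.Agent.Helper23.FN.All2

/-!
# The sharp pinching constant for flows with flat normal bundle: `2/n` for `n ≥ 4`

Ancient mean curvature flows in the class of the problem, in any codimension, whose time slices
have flat normal bundle.

The lower bound is proved with the test function `f = (|G|² - D²) / D²`, where
`G = c H Hᵀ - (⟨h^α, h^β⟩)` is a quadratic form on the normal space and
`D = tr G = c |H|² - |h|² > 0`: `f ≥ 0`, and `f = 0` exactly if the second fundamental form is
parallel to `H`.  For `c ≤ 3/(n+2)` the gradient terms in the evolution of `log f` have a sign for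
every second fundamental form, and for flat normal bundle and `c ≤ 2/n` so has the reaction term.
-/

namespace Pool.Agent.Helper23.Kept.FlatNormalBundle

open Helper35.PI Helper23.FN
open scoped ContDiff Manifold

theorem result :
    (∀ n : ℕ, 4 ≤ n → cFlat n = ((2 / n : ℝ) : EReal) ∧ ForcesFlat n (2 / n)) ∧
    (∀ n : ℕ, 2 ≤ n → ForcesFlat n (min (2 / (n : ℝ)) (3 / ((n : ℝ) + 2)))) ∧
    (∀ n : ℕ, 2 ≤ n → ∀ c : ℝ, ForcesFlat n c → c ≤ 2 / n) := by
  refine ⟨fun n hn => ⟨All.cFlat_eq4 All.tFNT n hn, ?_⟩, fun n hn => All.tFNT n hn, ?_⟩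
  · have h := All.tFNT n (by omega)
    rw [All.min_eq n hn] at h
    exact h
  · intro n hn c hc
    by_contra hcon
    push Not at hcon
    exact All.not_forces n hn c hcon hc

end Pool.Agent.Helper23.Kept.FlatNormalBundle
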